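import Pool.Agent.N204.RD.Stm0

/-!
# RD/CO: compact conjugation of a matrix with eigenvalues of absolute value one
-/

set_option autoImplicit false
set_option linter.unusedSectionVars false

namespace Pool.Agent.N277.RD

open Matrix
open Pool.Agent.N996.BP (kp kp_apply kp_one kp_mul kp_inv_mul)
open Pool.Agent.N204.RD (FixA S_CO)
open scoped ComplexOrder MatrixOrder

variable {ι : Type} [Fintype ι] [DecidableEq ι]

/-! ### The sum of the squares of the entries -/

/-- the sum of the squares of the entries -/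
noncomputable def hs (A : Matrix ι ι ℂ) : ℝ := ∑ i, ∑ j, ‖A i j‖ ^ 2

lemma hs_nonneg (A : Matrix ι ι ℂ) : 0 ≤ hs A :=
  Finset.sum_nonneg fun _ _ => Finset.sum_nonneg fun _ _ => by positivity

lemma hs_trace (A : Matrix ι ι ℂ) : ((hs A : ℝ) : ℂ) = (Aᴴ * A).trace := by
  unfold hs Matrix.trace
  push_cast
  simp only [Matrix.diag_apply, Matrix.mul_apply, Matrix.conjTranspose_apply]
  rw [Finset.sum_comm]
  refine Finset.sum_congr rfl fun i _ => Finset.sum_congr rfl fun j _ => ?_
  rw [← Complex.conj_mul']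
  rfl

lemma hs_re (A : Matrix ι ι ℂ) : hs A = (Aᴴ * A).trace.re := by
  rw [← hs_trace, Complex.ofReal_re]

lemma entry_le (A : Matrix ι ι ℂ) (i j : ι) : ‖A i j‖ ^ 2 ≤ hs A := by
  unfold hs
  refine le_trans ?_ (Finset.single_le_sum (f := fun i => ∑ j, ‖A i j‖ ^ 2)
    (fun k _ => Finset.sum_nonneg fun _ _ => by positivity) (Finset.mem_univ i))
  exact Finset.single_le_sum (f := fun j => ‖A i j‖ ^ 2) (fun k _ => by positivity)
    (Finset.mem_univ j)

lemma hs_eq_zero {A : Matrix ι ι ℂ} (h : hs A ≤ 0) : A = 0 := by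
  ext i j
  have h1 := (entry_le A i j).trans h
  have h2 : ‖A i j‖ = 0 := by
    have := norm_nonneg (A i j)
    nlinarith
  simpa using h2

lemma hs_conjTranspose (A : Matrix ι ι ℂ) : hs Aᴴ = hs A := by
  unfold hs
  rw [Finset.sum_comm]
  refine Finset.sum_congr rfl fun i _ => Finset.sum_congr rfl fun j _ => ?_
  rw [Matrix.conjTranspose_apply, norm_star]

/-- multiplication by a diagonal matrix with entries of absolute value one -/
lemma hs_mul_diag (A : Matrix ι ι ℂ) (d : ι → ℂ) (hd : ∀ i, ‖d i‖ = 1) :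
    hs (A * Matrix.diagonal d) = hs A := by
  unfold hs
  refine Finset.sum_congr rfl fun i _ => Finset.sum_congr rfl fun j _ => ?_
  rw [Matrix.mul_diagonal, norm_mul, hd, mul_one]

lemma hs_diag_mul (A : Matrix ι ι ℂ) (d : ι → ℂ) (hd : ∀ i, ‖d i‖ = 1) :
    hs (Matrix.diagonal d * A) = hs A := by
  unfold hs
  refine Finset.sum_congr rfl fun i _ => Finset.sum_congr rfl fun j _ => ?_
  rw [Matrix.diagonal_mul, norm_mul, hd, one_mul]

/-! ### The group of the matrices which fix all the arrays -/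

section Group

variable (𝒜 : ∀ κ : Type, Set ((κ → ι) → ℂ))

lemma fix_one : FixA 𝒜 (1 : Matrix ι ι ℂ) := by
  intro κ _ _ a _
  rw [kp_one, one_mulVec]

variable {𝒜}

lemma fix_mul {p q : Matrix ι ι ℂ} (hp : FixA 𝒜 p) (hq : FixA 𝒜 q) : FixA 𝒜 (p * q) := by
  intro κ _ _ a ha
  rw [kp_mul, ← mulVec_mulVec, hq κ a ha, hp κ a ha]

lemma fix_inv {p q : Matrix ι ι ℂ} (hp : FixA 𝒜 p) (h : q * p = 1) : FixA 𝒜 q := by
  intro κ _ _ a ha
  have h1 := hp κ a ha
  calc kp κ q *ᵥ a = kp κ q *ᵥ (kp κ p *ᵥ a) := by rw [h1]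
    _ = a := by rw [mulVec_mulVec, kp_inv_mul h, one_mulVec]

lemma kp_conjTranspose (κ : Type) [Fintype κ] [DecidableEq κ] (g : Matrix ι ι ℂ) :
    kp κ gᴴ = (kp κ g)ᴴ := by
  ext i j
  simp only [kp_apply, Matrix.conjTranspose_apply]
  rw [star_prod]

lemma kp_posSemidef (κ : Type) [Fintype κ] [DecidableEq κ] {q : Matrix ι ι ℂ}
    (hq : q.PosSemidef) : (kp κ q).PosSemidef := by
  have h1 : CFC.sqrt q * CFC.sqrt q = q := CFC.sqrt_mul_sqrt_self q hq.nonneg
  have h2 : (CFC.sqrt q).PosSemidef := (CFC.sqrt_nonneg q).posSemidef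
  have h3 : q = (CFC.sqrt q)ᴴ * CFC.sqrt q := by rw [h2.isHermitian.eq, h1]
  rw [h3, kp_mul, kp_conjTranspose]
  exact Matrix.posSemidef_conjTranspose_mul_self _

/-- the positive square root of an element of the group belongs to the group -/
lemma fix_sqrt {q : Matrix ι ι ℂ} (hq : q.PosSemidef) (h : FixA 𝒜 (q * q)) : FixA 𝒜 q := by
  intro κ _ _ a ha
  set T := kp κ q with hT
  have hTp : T.PosSemidef := kp_posSemidef κ hq
  have h1 : T *ᵥ (T *ᵥ a) = a := by
    rw [mulVec_mulVec, hT, ← kp_mul]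
    exact h κ a ha
  set v := T *ᵥ a - a with hv
  have h2 : T *ᵥ v = -v := by
    rw [hv, mulVec_sub, h1]
    simp
  have h3 : 0 ≤ star v ⬝ᵥ (T *ᵥ v) := hTp.dotProduct_mulVec_nonneg v
  rw [h2, dotProduct_neg] at h3
  have h4 : 0 ≤ star v ⬝ᵥ v := dotProduct_star_self_nonneg v
  have h5 : star v ⬝ᵥ v = 0 := le_antisymm (by simpa using h3) h4
  have h6 : v = 0 := dotProduct_star_self_eq_zero.1 h5
  rw [hv] at h6
  exact sub_eq_zero.1 h6

lemma isClosed_fix : IsClosed {p : Matrix ι ι ℂ | FixA 𝒜 p} := by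
  unfold Pool.Agent.N204.RD.FixA
  simp only [Set.ofPred_forall]
  refine isClosed_iInter fun κ => isClosed_iInter fun i1 => isClosed_iInter fun i2 =>
    isClosed_iInter fun a => isClosed_iInter fun ha => ?_
  refine isClosed_eq ?_ continuous_const
  refine continuous_pi fun i => ?_
  simp only [Matrix.mulVec, dotProduct, kp_apply]
  refine continuous_finsetSum _ fun j _ => ?_
  refine Continuous.mul ?_ continuous_const
  refine continuous_finsetProd _ fun k _ => ?_
  exact continuous_id.matrix_elem _ _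

end Group

/-! ### The minimum -/

/-- the function which is minimised -/
noncomputable def Psi (P Pi : Matrix ι ι ℂ) (x : Matrix ι ι ℂ × Matrix ι ι ℂ) : ℝ :=
  hs (x.1 * P) + hs (Pi * x.2)

lemma continuous_hs {X : Type*} [TopologicalSpace X] {f : X → Matrix ι ι ℂ} (hf : Continuous f) :
    Continuous fun x => hs (f x) := by
  unfold hs
  refine continuous_finsetSum _ fun i _ => continuous_finsetSum _ fun j _ => ?_
  exact (hf.matrix_elem i j).norm.pow 2

lemma continuous_Psi (P Pi : Matrix ι ι ℂ) : Continuous (Psi P Pi) := by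
  unfold Psi
  refine Continuous.add ?_ ?_
  · exact continuous_hs (continuous_fst.matrix_mul continuous_const)
  · exact continuous_hs (continuous_const.matrix_mul continuous_snd)

/-- matrices with bounded entries -/
lemma compact_box (R : ℝ) : IsCompact {x : Matrix ι ι ℂ × Matrix ι ι ℂ |
    (∀ i j, ‖x.1 i j‖ ≤ R) ∧ ∀ i j, ‖x.2 i j‖ ≤ R} := by
  have h1 : IsCompact {A : Matrix ι ι ℂ | ∀ i j, ‖A i j‖ ≤ R} := by
    have h2 : IsCompact (Set.pi Set.univ fun _ : ι => Set.pi Set.univ fun _ : ι =>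
        Metric.closedBall (0 : ℂ) R) :=
      isCompact_univ_pi fun _ => isCompact_univ_pi fun _ => isCompact_closedBall 0 R
    have e : (Set.pi Set.univ fun _ : ι => Set.pi Set.univ fun _ : ι =>
        Metric.closedBall (0 : ℂ) R) = {A : ι → ι → ℂ | ∀ i j, ‖A i j‖ ≤ R} := by
      ext A
      simp
    rw [e] at h2
    exact h2
  exact h1.prod h1

lemma exists_min (P Pi : Matrix ι ι ℂ) (hP : P * Pi = 1)
    (K : Set (Matrix ι ι ℂ × Matrix ι ι ℂ)) (hK : IsClosed K) (x0 : Matrix ι ι ℂ × Matrix ι ι ℂ)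
    (hx0 : x0 ∈ K) : ∃ x ∈ K, ∀ y ∈ K, Psi P Pi x ≤ Psi P Pi y := by
  have hP' : Pi * P = 1 := mul_eq_one_comm.1 hP
  set C := Psi P Pi x0 with hC
  set M : ℝ := (∑ i, ∑ j, ‖Pi i j‖) + ∑ i, ∑ j, ‖P i j‖ with hM
  have hM0 : 0 ≤ M := by positivity
  have hPi : ∀ i j, ‖Pi i j‖ ≤ M := by
    intro i j
    have h1 : ‖Pi i j‖ ≤ ∑ i, ∑ j, ‖Pi i j‖ := by
      refine le_trans ?_ (Finset.single_le_sum (f := fun i => ∑ j, ‖Pi i j‖)
        (fun k _ => by positivity) (Finset.mem_univ i))
      exact Finset.single_le_sum (f := fun j => ‖Pi i j‖) (fun k _ => by positivity)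
        (Finset.mem_univ j)
    have h2 : 0 ≤ ∑ i, ∑ j, ‖P i j‖ := by positivity
    linarith
  have hPP : ∀ i j, ‖P i j‖ ≤ M := by
    intro i j
    have h1 : ‖P i j‖ ≤ ∑ i, ∑ j, ‖P i j‖ := by
      refine le_trans ?_ (Finset.single_le_sum (f := fun i => ∑ j, ‖P i j‖)
        (fun k _ => by positivity) (Finset.mem_univ i))
      exact Finset.single_le_sum (f := fun j => ‖P i j‖) (fun k _ => by positivity)
        (Finset.mem_univ j)
    have h2 : 0 ≤ ∑ i, ∑ j, ‖Pi i j‖ := by positivity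
    linarith
  set R : ℝ := Fintype.card ι * (Real.sqrt C * M) with hR
  have hbox : K ∩ {x | Psi P Pi x ≤ C} ⊆ {x : Matrix ι ι ℂ × Matrix ι ι ℂ |
    (∀ i j, ‖x.1 i j‖ ≤ R) ∧ ∀ i j, ‖x.2 i j‖ ≤ R} := by
    rintro x ⟨-, hx⟩
    have hx' : hs (x.1 * P) + hs (Pi * x.2) ≤ C := hx
    have n1 := hs_nonneg (x.1 * P)
    have n2 := hs_nonneg (Pi * x.2)
    have e1 : ∀ i j, ‖(x.1 * P) i j‖ ≤ Real.sqrt C := fun i j =>
      Real.le_sqrt_of_sq_le ((entry_le _ i j).trans (by linarith))
    have e2 : ∀ i j, ‖(Pi * x.2) i j‖ ≤ Real.sqrt C := fun i j =>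
      Real.le_sqrt_of_sq_le ((entry_le _ i j).trans (by linarith))
    constructor
    · intro i j
      have h1 : x.1 = (x.1 * P) * Pi := by rw [Matrix.mul_assoc, hP, Matrix.mul_one]
      rw [h1, Matrix.mul_apply]
      refine (norm_sum_le _ _).trans ?_
      calc ∑ k, ‖(x.1 * P) i k * Pi k j‖ ≤ ∑ _k : ι, Real.sqrt C * M := by
            refine Finset.sum_le_sum fun k _ => ?_
            rw [norm_mul]
            exact mul_le_mul (e1 i k) (hPi k j) (norm_nonneg _) (Real.sqrt_nonneg _)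
        _ = R := by rw [Finset.sum_const, Finset.card_univ, nsmul_eq_mul]
    · intro i j
      have h1 : x.2 = P * (Pi * x.2) := by rw [← Matrix.mul_assoc, hP, Matrix.one_mul]
      rw [h1, Matrix.mul_apply]
      refine (norm_sum_le _ _).trans ?_
      calc ∑ k, ‖P i k * (Pi * x.2) k j‖ ≤ ∑ _k : ι, Real.sqrt C * M := by
            refine Finset.sum_le_sum fun k _ => ?_
            rw [norm_mul, mul_comm (Real.sqrt C)]
            exact mul_le_mul (hPP i k) (e2 k j) (norm_nonneg _) hM0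
        _ = R := by rw [Finset.sum_const, Finset.card_univ, nsmul_eq_mul]
  have hcl : IsClosed (K ∩ {x | Psi P Pi x ≤ C}) :=
    hK.inter (isClosed_le (continuous_Psi P Pi) continuous_const)
  have hcomp : IsCompact (K ∩ {x | Psi P Pi x ≤ C}) := (compact_box R).of_isClosed_subset hcl hbox
  have hx0' : x0 ∈ {x | Psi P Pi x ≤ C} := by
    show Psi P Pi x0 ≤ C
    exact le_rfl
  obtain ⟨x, hx, hmin⟩ := hcomp.exists_isMinOn ⟨x0, hx0, hx0'⟩ (continuous_Psi P Pi).continuousOn
  refine ⟨x, hx.1, fun y hy => ?_⟩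
  by_cases h : Psi P Pi y ≤ C
  · exact hmin ⟨hy, h⟩
  · exact (hx.2).trans (not_le.1 h).le

/-- the inequality between the arithmetic and the geometric mean -/
lemma agm (s h a : Matrix ι ι ℂ) (hs1 : sᴴ = s) (hss : s * s = h) :
    hs ((1 - s) * a) = hs a - 2 * (aᴴ * s * a).trace.re + (aᴴ * h * a).trace.re := by
  rw [hs_re, hs_re, Matrix.conjTranspose_mul, Matrix.conjTranspose_sub, Matrix.conjTranspose_one,
    hs1]
  have e : aᴴ * (1 - s) * ((1 - s) * a) = aᴴ * a - aᴴ * s * a - aᴴ * s * a + aᴴ * h * a := by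
    rw [← hss]
    noncomm_ring
  rw [e]
  simp only [Matrix.trace_add, Matrix.trace_sub, Complex.add_re, Complex.sub_re]
  ring

theorem co : S_CO := by
  intro ι _ _ 𝒜 H F P Pi lam hF hP hFd hlam
  have hP' : Pi * P = 1 := mul_eq_one_comm.1 hP
  -- the inverse of `F`
  have hll : ∀ i, lam i * star (lam i) = 1 := by
    intro i
    have := Complex.mul_conj' (lam i)
    rw [hlam i] at this
    simpa using this
  set Fi : Matrix ι ι ℂ := P * Matrix.diagonal (star lam) * Pi with hFi
  have hdd : Matrix.diagonal lam * Matrix.diagonal (star lam) = 1 := by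
    rw [Matrix.diagonal_mul_diagonal, ← Matrix.diagonal_one]
    congr 1
    funext i
    exact hll i
  have hFFi : F * Fi = 1 := by
    rw [hFd, hFi]
    calc P * Matrix.diagonal lam * Pi * (P * Matrix.diagonal (star lam) * Pi)
        = P * (Matrix.diagonal lam * (Pi * P) * Matrix.diagonal (star lam)) * Pi := by
          simp only [Matrix.mul_assoc]
      _ = 1 := by rw [hP', Matrix.mul_one, hdd, Matrix.mul_one, hP]
  have hFiF : Fi * F = 1 := mul_eq_one_comm.1 hFFi
  -- the minimum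
  set K : Set (Matrix ι ι ℂ × Matrix ι ι ℂ) := {x | FixA 𝒜 x.1 ∧ x.1 * x.2 = 1} with hK
  have hKc : IsClosed K := by
    refine IsClosed.inter ?_ ?_
    · exact isClosed_fix.preimage continuous_fst
    · exact isClosed_eq (continuous_fst.matrix_mul continuous_snd) continuous_const
  obtain ⟨⟨g, gi⟩, ⟨hg, hggi⟩, hmin⟩ := exists_min P Pi hP K hKc (1, 1)
    ⟨fix_one 𝒜, Matrix.one_mul 1⟩
  simp only at hg hggi
  have hgig : gi * g = 1 := mul_eq_one_comm.1 hggi
  have hgi : FixA 𝒜 gi := fix_inv hg hgig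
  refine ⟨g, gi, hg, hgi, hggi, ?_⟩
  set N := g * F * gi with hN
  set Ni := g * Fi * gi with hNi
  have hNNi : N * Ni = 1 := by
    rw [hN, hNi]
    calc g * F * gi * (g * Fi * gi) = g * (F * (gi * g) * Fi) * gi := by
          simp only [Matrix.mul_assoc]
      _ = 1 := by rw [hgig, Matrix.mul_one, hFFi, Matrix.mul_one, hggi]
  have hNiN : Ni * N = 1 := mul_eq_one_comm.1 hNNi
  have hNfix : FixA 𝒜 N := fix_mul (fix_mul hg hF) hgi
  -- the positive part
  set h := Nᴴ * N with hh
  have hhp : h.PosSemidef := Matrix.posSemidef_conjTranspose_mul_self N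
  have hhfix : FixA 𝒜 h := fix_mul (H N hNfix).2 hNfix
  set s := CFC.sqrt h with hs'
  have hsp : s.PosSemidef := (CFC.sqrt_nonneg h).posSemidef
  have hss : s * s = h := CFC.sqrt_mul_sqrt_self h hhp.nonneg
  have hsfix : FixA 𝒜 s := fix_sqrt hsp (by rw [hss]; exact hhfix)
  set t := CFC.sqrt s with ht'
  have htp : t.PosSemidef := (CFC.sqrt_nonneg s).posSemidef
  have htt : t * t = s := CFC.sqrt_mul_sqrt_self s hsp.nonneg
  have htfix : FixA 𝒜 t := fix_sqrt htp (by rw [htt]; exact hsfix)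
  obtain ⟨tu, htu⟩ := (H t htfix).1
  set ti : Matrix ι ι ℂ := ((tu⁻¹ : (Matrix ι ι ℂ)ˣ) : Matrix ι ι ℂ) with hti
  have htti : t * ti = 1 := by rw [← htu, hti]; exact tu.mul_inv
  have htit : ti * t = 1 := mul_eq_one_comm.1 htti
  have htH : tᴴ = t := htp.isHermitian.eq
  have hsH : sᴴ = s := hsp.isHermitian.eq
  have htiH : tiᴴ = ti := by
    have h1 : tiᴴ * t = 1 := by
      have := congrArg Matrix.conjTranspose htti
      rwa [Matrix.conjTranspose_mul, htH, Matrix.conjTranspose_one] at this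
    calc tiᴴ = tiᴴ * (t * ti) := by rw [htti, Matrix.mul_one]
      _ = ti := by rw [← Matrix.mul_assoc, h1, Matrix.one_mul]
  set si := ti * ti with hsi
  have hsiH : siᴴ = si := by rw [hsi, Matrix.conjTranspose_mul, htiH]
  have hssi : s * si = 1 := by
    rw [← htt, hsi]
    calc t * t * (ti * ti) = t * (t * ti) * ti := by simp only [Matrix.mul_assoc]
      _ = 1 := by rw [htti, Matrix.mul_one, htti]
  have hsis : si * s = 1 := mul_eq_one_comm.1 hssi
  set hi := Ni * Niᴴ with hhi
  have hsisi : si * si = hi := by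
    have h1 : h * (si * si) = 1 := by
      rw [← hss]
      calc s * s * (si * si) = s * (s * si) * si := by simp only [Matrix.mul_assoc]
        _ = 1 := by rw [hssi, Matrix.mul_one, hssi]
    have h2 : hi * h = 1 := by
      rw [hhi, hh]
      calc Ni * Niᴴ * (Nᴴ * N) = Ni * (Niᴴ * Nᴴ) * N := by simp only [Matrix.mul_assoc]
        _ = 1 := by rw [← Matrix.conjTranspose_mul, hNNi, Matrix.conjTranspose_one,
                      Matrix.mul_one, hNiN]
    calc si * si = (hi * h) * (si * si) := by rw [h2, Matrix.one_mul]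
      _ = hi := by rw [Matrix.mul_assoc, h1, Matrix.mul_one]
  -- the two matrices
  obtain ⟨a, ha⟩ : ∃ a, a = g * P := ⟨_, rfl⟩
  obtain ⟨b, hb⟩ : ∃ b, b = (Pi * gi)ᴴ := ⟨_, rfl⟩
  have hA : (aᴴ * h * a).trace.re = hs a := by
    have h1 : N * a = a * Matrix.diagonal lam := by
      rw [hN, ha]
      calc g * F * gi * (g * P) = g * F * (gi * g) * P := by simp only [Matrix.mul_assoc]
        _ = g * (F * P) := by rw [hgig, Matrix.mul_one, Matrix.mul_assoc]
        _ = g * P * Matrix.diagonal lam := by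
          rw [hFd]
          calc g * (P * Matrix.diagonal lam * Pi * P)
              = g * P * (Matrix.diagonal lam * (Pi * P)) := by simp only [Matrix.mul_assoc]
            _ = _ := by rw [hP', Matrix.mul_one]
    have h2 : aᴴ * h * a = (N * a)ᴴ * (N * a) := by
      rw [hh, Matrix.conjTranspose_mul N a]
      simp only [Matrix.mul_assoc]
    rw [h2, ← hs_re, h1]
    exact hs_mul_diag a lam hlam
  have hB : (bᴴ * hi * b).trace.re = hs b := by
    have h1 : bᴴ * Ni = Matrix.diagonal (star lam) * bᴴ := by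
      rw [hNi, hb, Matrix.conjTranspose_conjTranspose]
      calc Pi * gi * (g * Fi * gi) = Pi * (gi * g) * Fi * gi := by simp only [Matrix.mul_assoc]
        _ = Pi * Fi * gi := by rw [hgig, Matrix.mul_one]
        _ = _ := by
          rw [hFi]
          calc Pi * (P * Matrix.diagonal (star lam) * Pi) * gi
              = (Pi * P) * Matrix.diagonal (star lam) * (Pi * gi) := by
                simp only [Matrix.mul_assoc]
            _ = _ := by rw [hP', Matrix.one_mul]
    have h2 : bᴴ * hi * b = ((bᴴ * Ni)ᴴ)ᴴ * (bᴴ * Ni)ᴴ := by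
      have q : (bᴴ * Ni)ᴴ = Niᴴ * b := by
        rw [Matrix.conjTranspose_mul, Matrix.conjTranspose_conjTranspose]
      rw [Matrix.conjTranspose_conjTranspose (bᴴ * Ni), q, hhi]
      simp only [Matrix.mul_assoc]
    rw [h2, ← hs_re, hs_conjTranspose, h1, hs_diag_mul _ _ (fun i => by simp [hlam i]),
      hs_conjTranspose]
  -- the midpoint
  have hmid : Psi P Pi (t * g, gi * ti) = (aᴴ * s * a).trace.re + (bᴴ * si * b).trace.re := by
    unfold Psi
    congr 1
    · rw [hs_re]
      congr 2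
      rw [ha, ← htt]
      simp only [Matrix.conjTranspose_mul, htH, Matrix.mul_assoc]
    · rw [← hs_conjTranspose, hs_re, Matrix.conjTranspose_conjTranspose]
      congr 2
      rw [hb, hsi]
      simp only [Matrix.conjTranspose_mul, Matrix.conjTranspose_conjTranspose, htiH,
        Matrix.mul_assoc]
  have hle := hmin (t * g, gi * ti) ⟨fix_mul htfix hg, by
    show t * g * (gi * ti) = 1
    calc t * g * (gi * ti) = t * (g * gi) * ti := by simp only [Matrix.mul_assoc]
      _ = 1 := by rw [hggi, Matrix.mul_one, htti]⟩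
  rw [hmid] at hle
  have hle2 : hs a + hs b ≤ (aᴴ * s * a).trace.re + (bᴴ * si * b).trace.re := by
    have h1 : Psi P Pi (g, gi) = hs a + hs b := by
      unfold Psi
      rw [hb, hs_conjTranspose, ha]
    rw [← h1]
    exact hle
  have k1 := agm s h a hsH hss
  have k2 := agm si hi b hsiH hsisi
  rw [hA] at k1
  rw [hB] at k2
  have n2 := hs_nonneg ((1 - si) * b)
  have h0 : (1 - s) * a = 0 := hs_eq_zero (by linarith)
  have hs1 : s = 1 := by
    have h1 : (1 - s) * (a * (Pi * gi)) = 0 := by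
      rw [← Matrix.mul_assoc, h0, Matrix.zero_mul]
    have h2 : a * (Pi * gi) = 1 := by
      rw [ha]
      calc g * P * (Pi * gi) = g * (P * Pi) * gi := by simp only [Matrix.mul_assoc]
        _ = 1 := by rw [hP, Matrix.mul_one, hggi]
    rw [h2, Matrix.mul_one] at h1
    exact (sub_eq_zero.1 h1).symm
  rw [← hss, hs1, Matrix.one_mul]

end Pool.Agent.N277.RD
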